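import Pool.Agent.Helper65.EH.Defs

/-!
Part CERT: the pointwise certificate for the weights `k ≤ 1 / 3`.
-/

set_option autoImplicit false

open Real

namespace Pool.Agent.Helper33.EH.CERT

open Pool.Agent.Helper65.ET (hh HH BB)

/-- the constant term -/
noncomputable def QQ (k v : ℝ) : ℝ :=
  v ^ 3 - 3 * v + 2 - k / 8 + k * (31 / 100 * (19 / 20 * v - v ^ 2 / 2))

/-- the discriminant -/
noncomputable def TT (k v : ℝ) : ℝ :=
  (12 * (284 / 625) - 31 / 100 * (19 / 20 - v) * (1 + 71 / 25 * v + 5041 / 10000 * v ^ 2)) *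
    QQ k v - 12 * (31 / 100) * (19 / 20 - v) * (1 - 71 / 100 * v) ^ 2

lemma TT_nonneg0 (v : ℝ) (h0 : 0 ≤ v) (h1 : v ≤ 19 / 20) : 0 ≤ TT 0 v := by
  have h3 : 0 ≤ 19 / 20 - v := by linarith
  have e : TT 0 v =
      (434086400 / 47045881) * (v ^ 0 * (19 / 20 - v) ^ 6) +
      (2130924096 / 47045881) * (v ^ 1 * (19 / 20 - v) ^ 5) +
      (488884919754 / 5880735125) * (v ^ 2 * (19 / 20 - v) ^ 4) +
      (8248524718213 / 117614702500) * (v ^ 3 * (19 / 20 - v) ^ 3) +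
      (1472275818603 / 58807351250) * (v ^ 4 * (19 / 20 - v) ^ 2) +
      (87874244359449 / 47045881000000) * (v ^ 5 * (19 / 20 - v) ^ 1) +
      (12868608 / 235229405) * (v ^ 6 * (19 / 20 - v) ^ 0) := by
    unfold TT QQ
    ring
  rw [e]
  positivity

lemma QQ_nonneg0 (v : ℝ) (h0 : 0 ≤ v) (h1 : v ≤ 19 / 20) : 0 ≤ QQ 0 v := by
  have h3 : 0 ≤ 19 / 20 - v := by linarith
  have e : QQ 0 v =
      (16000 / 6859) * (v ^ 0 * (19 / 20 - v) ^ 3) +
      (25200 / 6859) * (v ^ 1 * (19 / 20 - v) ^ 2) +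
      (2400 / 6859) * (v ^ 2 * (19 / 20 - v) ^ 1) +
      (59 / 6859) * (v ^ 3 * (19 / 20 - v) ^ 0) := by
    unfold QQ
    ring
  rw [e]
  positivity

lemma TT_nonneg1 (v : ℝ) (h0 : 0 ≤ v) (h1 : v ≤ 19 / 20) : 0 ≤ TT (1 / 3) v := by
  have h3 : 0 ≤ 19 / 20 - v := by linarith
  have e : TT (1 / 3) v =
      (1260992800 / 141137643) * (v ^ 0 * (19 / 20 - v) ^ 6) +
      (156038420812 / 3528441075) * (v ^ 1 * (19 / 20 - v) ^ 5) +
      (19226061751339 / 235229405000) * (v ^ 2 * (19 / 20 - v) ^ 4) +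
      (16350142092273767 / 235229405000000) * (v ^ 3 * (19 / 20 - v) ^ 3) +
      (11859204496498301 / 470458810000000) * (v ^ 4 * (19 / 20 - v) ^ 2) +
      (978766613131257 / 470458810000000) * (v ^ 5 * (19 / 20 - v) ^ 1) +
      (107638272 / 1176147025) * (v ^ 6 * (19 / 20 - v) ^ 0) := by
    unfold TT QQ
    ring
  rw [e]
  positivity

lemma QQ_nonneg1 (v : ℝ) (h0 : 0 ≤ v) (h1 : v ≤ 19 / 20) : 0 ≤ QQ (1 / 3) v := by
  have h3 : 0 ≤ 19 / 20 - v := by linarith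
  have e : QQ (1 / 3) v =
      (47000 / 20577) * (v ^ 0 * (19 / 20 - v) ^ 3) +
      (374191 / 102885) * (v ^ 1 * (19 / 20 - v) ^ 2) +
      (25191 / 68590) * (v ^ 2 * (19 / 20 - v) ^ 1) +
      (987 / 68590) * (v ^ 3 * (19 / 20 - v) ^ 0) := by
    unfold QQ
    ring
  rw [e]
  positivity

lemma QQ_conv (k v : ℝ) : QQ k v = (1 - 3 * k) * QQ 0 v + 3 * k * QQ (1 / 3) v := by
  unfold QQ; ring

lemma TT_conv (k v : ℝ) : TT k v = (1 - 3 * k) * TT 0 v + 3 * k * TT (1 / 3) v := by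
  unfold TT QQ; ring

lemma QQ_nonneg (k v : ℝ) (hk : 0 ≤ k) (hk' : k ≤ 1 / 3) (h0 : 0 ≤ v) (h1 : v ≤ 19 / 20) :
    0 ≤ QQ k v := by
  rw [QQ_conv]
  have h2 := QQ_nonneg0 v h0 h1
  have h3 := QQ_nonneg1 v h0 h1
  have h4 : 0 ≤ 1 - 3 * k := by linarith
  positivity

lemma TT_nonneg (k v : ℝ) (hk : 0 ≤ k) (hk' : k ≤ 1 / 3) (h0 : 0 ≤ v) (h1 : v ≤ 19 / 20) :
    0 ≤ TT k v := by
  rw [TT_conv]
  have h2 := TT_nonneg0 v h0 h1
  have h3 := TT_nonneg1 v h0 h1
  have h4 : 0 ≤ 1 - 3 * k := by linarith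
  positivity

lemma A_pos (v : ℝ) (h0 : 0 ≤ v) (h1 : v ≤ 19 / 20) :
    0 < 12 * (284 / 625) - 31 / 100 * (19 / 20 - v) * (1 + 71 / 25 * v + 5041 / 10000 * v ^ 2) := by
  have h2 : v ^ 2 ≤ 1 := by nlinarith
  have h3 : 0 ≤ 19 / 20 - v := by linarith
  have h4 : (19 / 20 - v) * (1 + 71 / 25 * v + 5041 / 10000 * v ^ 2) ≤
      1 * (1 + 71 / 25 * 1 + 5041 / 10000 * 1) := by
    apply mul_le_mul (by linarith) (by linarith) (by positivity) (by norm_num)
  nlinarith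

theorem main : Pool.Agent.Helper65.EH.S_CERT := by
  intro k v q W hk hk' hv hq hW0 hW
  rcases le_total v (19 / 20) with h | h
  · have hB : BB v = 0 := by
      unfold BB
      have : √v ≤ 1 := by rw [Real.sqrt_le_one]; linarith
      rw [max_eq_left (by linarith)]; norm_num
    have hh' : hh v = -(31 / 100) * (19 / 20 - v) := by
      unfold hh; rw [max_eq_right (by linarith)]
    rw [hB, Pool.Agent.Helper65.ET.HH_of_le h, hh']
    have hT := TT_nonneg k v hk hk' hv h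
    have hQ := QQ_nonneg k v hk hk' hv h
    unfold TT at hT
    have haa : √(284 / 625 : ℝ) ^ 2 = 284 / 625 := Real.sq_sqrt (by norm_num)
    have e1 : √(71 / 100 : ℝ) ^ 2 = 71 / 100 := Real.sq_sqrt (by norm_num)
    have e2 : √v ^ 2 = v := Real.sq_sqrt hv
    have e3 : (√(71 / 100) * √v) ^ 2 = 71 / 100 * v := by rw [mul_pow, e1, e2]
    have hgoal := Pool.Agent.Helper65.ET.core 12 √(284 / 625) (31 / 100 * (19 / 20 - v))
      (1 + 71 / 25 * v + 5041 / 10000 * v ^ 2)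
      (QQ k v) (1 - 71 / 100 * v) √q W
      (by norm_num) (by positivity) (by nlinarith) (by positivity) (by linarith)
      (Real.sqrt_nonneg _) hQ
      (by rw [haa]; exact A_pos v hv h) (by rw [haa]; linarith) (by norm_num) hW0
      (by
        intro t ht
        have h1 := hW (√(71 / 100) * √v) t (by positivity) ht
        have e4 : 2 * (√(71 / 100) * √v) * √(71 / 100) * √v = 71 / 50 * v := by
          have : 2 * (√(71 / 100) * √v) * √(71 / 100) * √v =
            2 * (√(71 / 100) ^ 2) * (√v ^ 2) := by ring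
          rw [this, e1, e2]; ring
        have e5 : (√(71 / 100) * √v) ^ 4 = 5041 / 10000 * v ^ 2 := by
          have : (√(71 / 100) * √v) ^ 4 = ((√(71 / 100) * √v) ^ 2) ^ 2 := by ring
          rw [this, e3]; ring
        rw [e4, e3, e5] at h1
        linarith)
    rw [Real.sq_sqrt hq] at hgoal
    unfold QQ at hgoal
    linarith
  · have hh' : hh v = 0 := by
      unfold hh; rw [max_eq_left (by linarith)]; ring
    rw [hh', Pool.Agent.Helper65.ET.HH_of_ge h]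
    have e2 : √v ^ 2 = v := Real.sq_sqrt hv
    have hk2 : 0 ≤ -(k / 8) - k * (-(31 / 100) * ((19 / 20) ^ 2 / 2)) := by
      have : -(k / 8) - k * (-(31 / 100) * ((19 / 20) ^ 2 / 2)) = k * (1191 / 80000) := by ring
      rw [this]; positivity
    unfold BB
    rcases le_total √v 1 with h1 | h1
    · rw [max_eq_left (by linarith)]
      have h3 : 0 ≤ v ^ 3 - 3 * v + 2 := by
        have : v ^ 3 - 3 * v + 2 = (v - 1) ^ 2 * (v + 2) := by ring
        rw [this]; positivity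
      linarith
    · rw [max_eq_right (by linarith)]
      have key : 0 ≤ (√v ^ 2) ^ 3 - 3 * √v ^ 2 + 2 - 12 * (√v - 1) ^ 2 := by
        obtain ⟨e, he, he0⟩ : ∃ e : ℝ, √v = 1 + e ∧ 0 ≤ e := ⟨√v - 1, by ring, by linarith⟩
        rw [he]
        have : ((1 + e) ^ 2) ^ 3 - 3 * (1 + e) ^ 2 + 2 - 12 * (1 + e - 1) ^ 2 =
            e ^ 2 * (20 * e + 15 * e ^ 2 + 6 * e ^ 3 + e ^ 4) := by ring
        rw [this]; positivity
      rw [e2] at key
      linarith

end Pool.Agent.Helper33.EH.CERT
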