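import Pool.Agent.Helper65.EH.Defs

/-!
Part COMB: ordered versus unordered representations.
-/

set_option autoImplicit false

open Finset

namespace Pool.Agent.Helper33.EH.COMB

open Pool.Agent.Helper65.EH (cp rep dset)
open Pool.Agent.Helper65.ET (ind)

/-- the ordered representations -/
noncomputable def Ord (A : Set ℕ) (h n : ℕ) : Finset (Fin h → ℕ) :=
  @Finset.filter (Fin h → ℕ) (fun f => ∀ i, f i ∈ A) (fun _ => Classical.propDecidable _)
    (Finset.Nat.antidiagonalTuple h n)

theorem mem_Ord {A : Set ℕ} {h n : ℕ} {f : Fin h → ℕ} :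
    f ∈ Ord A h n ↔ (∀ i, f i ∈ A) ∧ ∑ i, f i = n := by
  classical
  have h1 : f ∈ Ord A h n ↔ f ∈ Finset.Nat.antidiagonalTuple h n ∧ ∀ i, f i ∈ A :=
    @Finset.mem_filter _ _ (fun _ => Classical.propDecidable _) _ _
  rw [h1, Finset.Nat.mem_antidiagonalTuple]
  tauto

theorem card_fiber (A : Set ℕ) (h n : ℕ) (p : ℕ × ℕ) (hp : p ∈ HasAntidiagonal.antidiagonal n) :
    ((((Ord A (h + 1) n).filter (fun f => (f 0, ∑ i, f (Fin.succ i)) = p)).card : ℕ) : ℝ) =
      ind A p.1 * (Ord A h p.2).card := by
  classical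
  rw [HasAntidiagonal.mem_antidiagonal] at hp
  by_cases hA : p.1 ∈ A
  · have : ind A p.1 = 1 := by unfold ind; rw [if_pos hA]
    rw [this, one_mul]
    norm_cast
    refine card_bij' (fun f _ => Fin.tail f) (fun g _ => Fin.cons p.1 g) ?_ ?_ ?_ ?_
    · intro f hf
      rw [mem_filter, mem_Ord] at hf
      rw [mem_Ord]
      refine ⟨fun i => hf.1.1 _, ?_⟩
      have := congrArg Prod.snd hf.2
      exact this
    · intro g hg
      rw [mem_Ord] at hg
      rw [mem_filter, mem_Ord]
      refine ⟨⟨fun i => ?_, ?_⟩, ?_⟩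
      · refine Fin.cases ?_ (fun j => ?_) i
        · simpa using hA
        · simpa using hg.1 j
      · rw [Fin.sum_univ_succ]
        simp only [Fin.cons_zero, Fin.cons_succ]
        rw [hg.2, hp]
      · simp only [Fin.cons_zero, Fin.cons_succ]
        rw [hg.2]
    · intro f hf
      rw [mem_filter] at hf
      have := congrArg Prod.fst hf.2
      simp only at this
      rw [← this]
      exact Fin.cons_self_tail f
    · intro g hg
      exact Fin.tail_cons _ _
  · have : ind A p.1 = 0 := by unfold ind; rw [if_neg hA]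
    rw [this, zero_mul]
    norm_cast
    rw [card_eq_zero, filter_eq_empty_iff]
    intro f hf heq
    rw [mem_Ord] at hf
    have := congrArg Prod.fst heq
    simp only at this
    exact hA (this ▸ hf.1 0)

theorem cp_eq (A : Set ℕ) : ∀ (h n : ℕ), cp (ind A) h n = (Ord A h n).card := by
  classical
  intro h
  induction h with
  | zero =>
    intro n
    unfold cp
    split_ifs with hn
    · subst hn
      have : Ord A 0 0 = {Fin.elim0} := by
        ext f
        rw [mem_Ord, mem_singleton]
        constructor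
        · intro _; exact Subsingleton.elim _ _
        · intro _; exact ⟨fun i => i.elim0, by simp⟩
      rw [this]; simp
    · have : Ord A 0 n = ∅ := by
        rw [eq_empty_iff_forall_notMem]
        intro f hf
        rw [mem_Ord] at hf
        simp at hf
        exact hn hf.symm
      rw [this]; simp
  | succ h ih =>
    intro n
    have h1 : (Ord A (h + 1) n).card = ∑ p ∈ HasAntidiagonal.antidiagonal n,
        ((Ord A (h + 1) n).filter (fun f => (f 0, ∑ i, f (Fin.succ i)) = p)).card := by
      apply card_eq_sum_card_fiberwise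
      intro f hf
      rw [mem_coe, mem_Ord] at hf
      rw [mem_coe, HasAntidiagonal.mem_antidiagonal]
      rw [Fin.sum_univ_succ] at hf
      exact hf.2
    rw [h1]
    push_cast
    unfold cp
    refine sum_congr rfl fun p hp => ?_
    rw [ih, card_fiber A h n p hp]

/-- the unordered representations -/
noncomputable def Un (A : Set ℕ) (h n : ℕ) : Finset (Fin h → ℕ) :=
  @Finset.filter (Fin h → ℕ) Monotone (fun _ => Classical.propDecidable _) (Ord A h n)

theorem mem_Un {A : Set ℕ} {h n : ℕ} {f : Fin h → ℕ} :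
    f ∈ Un A h n ↔ f ∈ Ord A h n ∧ Monotone f :=
  @Finset.mem_filter _ _ (fun _ => Classical.propDecidable _) _ _

theorem rep_eq (A : Set ℕ) (h n : ℕ) : rep A h n = (Un A h n).card := by
  unfold rep
  rw [← Set.ncard_coe_finset]
  congr 1
  ext f
  simp only [Set.mem_ofPred_eq, mem_coe]
  rw [mem_Un, mem_Ord]
  tauto

theorem comp_mem {A : Set ℕ} {h n : ℕ} {f : Fin h → ℕ} (hf : f ∈ Ord A h n)
    (σ : Equiv.Perm (Fin h)) : f ∘ σ ∈ Ord A h n := by
  rw [mem_Ord] at hf ⊢
  refine ⟨fun i => hf.1 _, ?_⟩
  rw [← hf.2]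
  exact Equiv.sum_comp σ f

theorem card_le (A : Set ℕ) (h n : ℕ) :
    (Ord A h n).card ≤ h.factorial * (Un A h n).card := by
  classical
  have h1 : ((univ : Finset (Equiv.Perm (Fin h))) ×ˢ Un A h n).card =
      h.factorial * (Un A h n).card := by
    rw [card_product, card_univ, Fintype.card_perm, Fintype.card_fin]
  rw [← h1]
  apply card_le_card_of_surjOn (fun p => p.2 ∘ p.1)
  intro f hf
  rw [mem_coe] at hf
  refine ⟨((Tuple.sort f)⁻¹, f ∘ Tuple.sort f), ?_, ?_⟩
  · rw [mem_coe, mem_product]
    refine ⟨mem_univ _, ?_⟩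
    rw [mem_Un]
    exact ⟨comp_mem hf _, Tuple.monotone_sort f⟩
  · funext i
    simp

theorem injective_of_notMem {A : Set ℕ} {h n : ℕ} (h2 : 2 ≤ h) (hn : n ∉ dset A (h - 2))
    {f : Fin h → ℕ} (hf : f ∈ Ord A h n) : Function.Injective f := by
  classical
  intro i j hij
  by_contra hne
  apply hn
  rw [mem_Ord] at hf
  refine ⟨f i, hf.1 i, (((univ : Finset (Fin h)).erase i).erase j).val.map f, ?_, ?_, ?_⟩
  · rw [Multiset.card_map]
    change (((univ : Finset (Fin h)).erase i).erase j).card = h - 2
    rw [card_erase_of_mem (mem_erase.2 ⟨fun h => hne h.symm, mem_univ _⟩),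
      card_erase_of_mem (mem_univ _), card_univ, Fintype.card_fin]
    omega
  · intro x hx
    rw [Multiset.mem_map] at hx
    obtain ⟨k, -, rfl⟩ := hx
    exact hf.1 k
  · rw [← hf.2, ← add_sum_erase univ f (mem_univ i),
      ← add_sum_erase (univ.erase i) f (mem_erase.2 ⟨fun h => hne h.symm, mem_univ j⟩), ← hij]
    change _ = 2 * f i + ∑ k ∈ ((univ : Finset (Fin h)).erase i).erase j, f k
    ring

theorem card_eq' (A : Set ℕ) (h n : ℕ) (h2 : 2 ≤ h) (hn : n ∉ dset A (h - 2)) :
    h.factorial * (Un A h n).card ≤ (Ord A h n).card := by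
  classical
  have h1 : ((univ : Finset (Equiv.Perm (Fin h))) ×ˢ Un A h n).card =
      h.factorial * (Un A h n).card := by
    rw [card_product, card_univ, Fintype.card_perm, Fintype.card_fin]
  rw [← h1]
  apply card_le_card_of_injOn (fun p => p.2 ∘ p.1)
  · intro p hp
    rw [mem_coe, mem_product] at hp
    rw [mem_Un] at hp
    exact comp_mem hp.2.1 _
  · rintro ⟨σ, f⟩ hp ⟨τ, g⟩ hq heq
    rw [mem_coe, mem_product] at hp hq
    rw [mem_Un] at hp hq
    simp only at heq hp hq
    have hfi := injective_of_notMem h2 hn hp.2.1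
    have hgi := injective_of_notMem h2 hn hq.2.1
    have hfs : StrictMono f := hp.2.2.strictMono_of_injective hfi
    have hgs : StrictMono g := hq.2.2.strictMono_of_injective hgi
    have hr : Set.range f = Set.range g := by
      have e1 : Set.range (f ∘ σ) = Set.range f := σ.surjective.range_comp f
      have e2 : Set.range (g ∘ τ) = Set.range g := τ.surjective.range_comp g
      rw [← e1, ← e2, heq]
    have hfg : f = g := (StrictMono.range_inj hfs hgs).1 hr
    subst hfg
    have hστ : σ = τ := by
      ext i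
      have := congrFun heq i
      simp only [Function.comp_apply] at this
      rw [hfi this]
    rw [hστ]

theorem main : Pool.Agent.Helper65.EH.S_COMB := by
  intro A h n
  rw [cp_eq, rep_eq]
  refine ⟨?_, fun h2 hn => ?_⟩
  · exact_mod_cast card_le A h n
  · apply le_antisymm
    · exact_mod_cast card_le A h n
    · exact_mod_cast card_eq' A h n h2 hn

end Pool.Agent.Helper33.EH.COMB
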