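import Pool.Agent.Helper65.EH.Defs

/-!
Part POLY: the polynomial inequality.
-/

set_option autoImplicit false

open Real

namespace Pool.Agent.Helper33.EH.POLY

theorem step1 (x : ℝ) (hx : 0 ≤ x) (h : ℕ) (hh : 1 ≤ h) :
    x ^ h - 1 - h * (x - 1) ≤ (h - 1) * ((x - 1) * (x ^ h - 1)) := by
  induction h, hh using Nat.le_induction with
  | base => norm_num
  | succ h hh ih =>
    have h1 : (1 : ℝ) ≤ h := by exact_mod_cast hh
    have h2 : 0 ≤ (h : ℝ) * ((x - 1) ^ 2 * x ^ h) := by positivity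
    push_cast
    have h3 : x ^ (h + 1) = x ^ h * x := pow_succ x h
    rw [h3]
    nlinarith [ih, h2]

theorem step2 (x : ℝ) (hx : 0 ≤ x) (h : ℕ) (hh : 1 ≤ h) :
    (x - 1) * (x ^ h - 1) ≤ (x ^ h - 1) ^ 2 := by
  rcases le_total 1 x with h1 | h1
  · have h2 : x ≤ x ^ h := by
      calc x = x ^ 1 := (pow_one x).symm
        _ ≤ x ^ h := pow_le_pow_right₀ h1 hh
    nlinarith
  · have h2 : x ^ h ≤ x := by
      calc x ^ h ≤ x ^ 1 := pow_le_pow_of_le_one hx h1 hh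
        _ = x := pow_one x
    nlinarith

theorem step3 (x : ℝ) (hx : 0 ≤ x) (h : ℕ) (hh : 1 ≤ h) :
    x ^ h - 1 - h * (x - 1) ≤ (h - 1) * (x ^ h - 1) ^ 2 := by
  have h1 : (1 : ℝ) ≤ h := by exact_mod_cast hh
  refine (step1 x hx h hh).trans ?_
  exact mul_le_mul_of_nonneg_left (step2 x hx h hh) (by linarith)

theorem main : Pool.Agent.Helper65.EH.S_POLY := by
  intro h α β hh hα hαβ hgap
  have hR : (3 : ℝ) ≤ h := by exact_mod_cast hh
  have hα0 : 0 < α := by linarith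
  have hβ0 : 0 < β := by linarith
  set g : ℝ := (√β - √α) ^ 2 with hg
  have hg' : g = α + β - 2 * √(α * β) := by
    rw [hg, Real.sqrt_mul hα0.le]
    nlinarith [Real.sq_sqrt hα0.le, Real.sq_sqrt hβ0.le]
  set u : ℝ := 1 / (8 * h * (h - 1)) with hu
  have hu0 : 0 < u := by rw [hu]; apply div_pos one_pos; nlinarith
  have hu1 : (h - 1 : ℝ) * u = 1 / (8 * h) := by
    rw [hu]
    have : (h : ℝ) - 1 ≠ 0 := by linarith
    field_simp
  have hu2 : (h - 1 : ℝ) * u ≤ 1 / 24 := by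
    rw [hu1]
    rw [div_le_div_iff₀ (by positivity) (by norm_num)]
    linarith
  have hu3 : u ≤ 1 / 24 := by nlinarith
  have hu4 : 0 < 1 - u := by linarith
  set θ : ℝ := (1 - u)⁻¹ with hθ
  have hθ0 : 0 < θ := by rw [hθ]; positivity
  have hθu : (1 - u) * θ = 1 := by rw [hθ]; exact mul_inv_cancel₀ hu4.ne'
  have hcast : ((h - 1 : ℕ) : ℝ) = h - 1 := by
    rw [Nat.cast_sub (by omega)]; norm_num
  set κ : ℝ := θ ^ (h - 1) with hκ
  have hκ0 : 0 < κ := by rw [hκ]; positivity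
  have hκ1 : 1 + 1 / (8 * h) ≤ κ := by
    have h1 : 1 + u ≤ θ := by
      rw [hθ, ← one_div, le_div_iff₀ hu4]; nlinarith
    have h2 := one_add_mul_le_pow (a := u) (by linarith) (h - 1)
    rw [hcast, hu1] at h2
    refine h2.trans ?_
    rw [hκ]
    exact pow_le_pow_left₀ (by linarith) h1 _
  have hκ2 : κ ≤ 2 := by
    have h2 := one_add_mul_le_pow (a := -u) (by linarith) (h - 1)
    rw [hcast] at h2
    have h3 : (1 / 2 : ℝ) ≤ (1 - u) ^ (h - 1) := by
      have : (1 + -u) = 1 - u := by ring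
      rw [this] at h2
      nlinarith
    rw [hκ, hθ, inv_pow]
    rw [inv_le_comm₀ (by positivity) (by norm_num)]
    linarith
  set M : ℝ := √(α * β) / 2 with hM
  have hM0 : 0 < M := by rw [hM]; positivity
  have hMsq : M ^ 2 = α * β / 4 := by
    rw [hM, div_pow, Real.sq_sqrt (by positivity)]; norm_num
  have hM2 : 2 * (h : ℝ) ≤ 2 * M := by
    have h1 : α ≤ √(α * β) := by
      apply Real.le_sqrt_of_sq_le
      nlinarith
    rw [hM]; linarith
  set m₀ : ℝ := M ^ ((h : ℝ)⁻¹) with hm₀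
  have hm₀0 : 0 < m₀ := by rw [hm₀]; positivity
  have hm₀h : m₀ ^ h = M := by
    rw [hm₀]
    exact Real.rpow_inv_natCast_pow hM0.le (by omega)
  set A : ℝ := 2 * M - κ * (h - 1) with hA
  set B : ℝ := κ - g with hB
  have hA0 : 0 < A := by rw [hA]; nlinarith
  have hB0 : 0 < B := by rw [hB]; linarith
  have hh1 : h = (h - 1) + 1 := by omega
  refine ⟨θ * m₀, by positivity, M * (3 / 4 * min A B), by positivity, fun m hm => ?_⟩
  set x : ℝ := m / m₀ with hx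
  have hx0 : 0 ≤ x := by rw [hx]; positivity
  have hmx : m = m₀ * x := by rw [hx]; field_simp
  have hmX : m ^ h = M * x ^ h := by rw [hmx, mul_pow, hm₀h]
  have e1 : (θ * m₀) ^ (h - 1) * m = κ * (M * x) := by
    rw [mul_pow, hmx, ← hκ, ← hm₀h]
    conv_rhs => rw [hh1]
    rw [pow_succ]
    have : h - 1 + 1 - 1 = h - 1 := by omega
    ring
  have e2 : (θ * m₀) ^ h = κ * θ * M := by
    rw [mul_pow, hm₀h, hκ]
    conv_lhs => rw [hh1]
    rw [pow_succ]
  have e3 : ((h : ℝ) - 1 - 1 / (8 * h)) * θ = h - 1 := by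
    have : (h : ℝ) - 1 - 1 / (8 * h) = (h - 1) * (1 - u) := by
      rw [← hu1]; ring
    rw [this, mul_assoc, hθu, mul_one]
  have e4 : 2 * (m ^ h) ^ 2 - (α + β) * m ^ h + α * β / 2 + h * (θ * m₀) ^ (h - 1) * m -
      (h - 1 - 1 / (8 * h)) * (θ * m₀) ^ h =
      M * (2 * M * (x ^ h - 1) ^ 2 + B * x ^ h - κ * (x ^ h - 1 - h * (x - 1))) := by
    have e5 : (h : ℝ) * (θ * m₀) ^ (h - 1) * m = h * (κ * (M * x)) := by
      rw [mul_assoc, e1]
    have e6 : ((h : ℝ) - 1 - 1 / (8 * h)) * (θ * m₀) ^ h = (h - 1) * (κ * M) := by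
      rw [e2]
      calc ((h : ℝ) - 1 - 1 / (8 * h)) * (κ * θ * M) =
          (((h : ℝ) - 1 - 1 / (8 * h)) * θ) * (κ * M) := by ring
        _ = _ := by rw [e3]
    have e7 : α * β / 2 = 2 * M ^ 2 := by rw [hMsq]; ring
    have e8 : α + β = g + 4 * M := by rw [hg', hM]; ring
    rw [e5, e6, e7, e8, hmX, hB]
    ring
  rw [e4]
  have hX := step3 x hx0 h (by omega)
  have hX0 : 0 ≤ x ^ h := by positivity
  apply mul_le_mul_of_nonneg_left _ hM0.le
  have h5 : κ * (x ^ h - 1 - h * (x - 1)) ≤ κ * ((h - 1) * (x ^ h - 1) ^ 2) :=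
    mul_le_mul_of_nonneg_left hX hκ0.le
  have h6 : min A B * (x ^ h - 1) ^ 2 ≤ A * (x ^ h - 1) ^ 2 :=
    mul_le_mul_of_nonneg_right (min_le_left _ _) (sq_nonneg _)
  have h7 : min A B * x ^ h ≤ B * x ^ h :=
    mul_le_mul_of_nonneg_right (min_le_right _ _) hX0
  have h8 : 0 < min A B := lt_min hA0 hB0
  have h9 : 3 / 4 * min A B ≤ min A B * (x ^ h - 1) ^ 2 + min A B * x ^ h := by
    have e9 : min A B * (x ^ h - 1) ^ 2 + min A B * x ^ h =
        3 / 4 * min A B + min A B * (x ^ h - 1 / 2) ^ 2 := by ring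
    rw [e9]
    exact le_add_of_nonneg_right (mul_nonneg h8.le (sq_nonneg _))
  have h10 : A * (x ^ h - 1) ^ 2 = 2 * M * (x ^ h - 1) ^ 2 - κ * ((h - 1) * (x ^ h - 1) ^ 2) := by
    rw [hA]; ring
  linarith only [h5, h6, h7, h9, h10]

end Pool.Agent.Helper33.EH.POLY
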